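import Pool.Agent.P.MP_009630_co.Sparse

set_option autoImplicit false

namespace Pool.Agent.Results.MP_009630_co.NegOneSparse

/-- For `d = -1`, even `l` and `3 c < n`, every quadruple with `c ^ 2 = -1 + l n` has a
solution: a `(0,1)`-matrix of order `n` with line sums `c` and `A ^ 2 = -I + l J`. -/
theorem result (n c l : ℕ) (hl : Even l) (hc : c ^ 2 + 1 = l * n) (hn : 3 * c < n) :
    ∃ A : Matrix (Fin n) (Fin n) ℤ, (∀ i j, A i j = 0 ∨ A i j = 1) ∧
      (∀ i, ∑ j, A i j = c) ∧ (∀ j, ∑ i, A i j = c) ∧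
      A ^ 2 = -1 + (l : ℤ) • Matrix.of (fun _ _ => (1 : ℤ)) := by
  obtain ⟨u, rfl⟩ := hl
  obtain ⟨h, rfl⟩ : ∃ h, c = 2 * h + 1 := by
    rcases Nat.even_or_odd' c with ⟨h, hh | hh⟩
    · exfalso
      have e : (2 * h) ^ 2 + 1 = 2 * (u * n) := by rw [← hh, hc]; ring
      have e2 : (2 * h) ^ 2 = 2 * (2 * h ^ 2) := by ring
      omega
    · exact ⟨h, hh⟩
  obtain ⟨A, h1, h2, h3, h4⟩ := Pool.Agent.P.MP_009630_co.sol_sparse (n := n) (h := h) (u := u)
    (by rw [← sq, hc]; ring) (by omega)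
  refine ⟨A, h1, fun i => ?_, fun j => ?_, ?_⟩
  · rw [h2 i]; push_cast; ring
  · rw [h3 j]; push_cast; ring
  · rw [sq, h4, neg_smul, one_smul]
    congr 2
    push_cast; ring

end Pool.Agent.Results.MP_009630_co.NegOneSparse
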