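import Pool.Agent.P.MP_009630_co.Small

set_option autoImplicit false

namespace Pool.Agent.Results.MP_009630_co.NegOneTwo

open Pool.Agent.P.MP_009630_co

/-- The admissible quadruples `(n, c, -1, 2)`: a `(0,1)`-matrix of order `n` with line sums `c`
and `A ^ 2 = -I + 2 J` exists exactly when `c ≥ 5`. -/
theorem result (n : ℕ) (c : ℤ) (hn : 1 < n) (hc : c ^ 2 = -1 + 2 * n) (hc1 : -1 ≤ c - 2) :
    (∃ A : Matrix (Fin n) (Fin n) ℤ, (∀ i j, A i j = 0 ∨ A i j = 1) ∧
      (∀ i, ∑ j, A i j = c) ∧ (∀ j, ∑ i, A i j = c) ∧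
      A ^ 2 = -1 + (2 : ℤ) • Matrix.of (fun _ _ => (1 : ℤ))) ↔ 5 ≤ c := by
  have key : (∃ A : Matrix (Fin n) (Fin n) ℤ, (∀ i j, A i j = 0 ∨ A i j = 1) ∧
      (∀ i, ∑ j, A i j = c) ∧ (∀ j, ∑ i, A i j = c) ∧
      A ^ 2 = -1 + (2 : ℤ) • Matrix.of (fun _ _ => (1 : ℤ))) ↔ Sol n c (-1) 2 := by
    simp only [Sol, sq, neg_smul, one_smul]
  rw [key]
  have hn' : (1 : ℤ) < n := by exact_mod_cast hn
  constructor
  · intro h
    by_contra hlt
    have h4 : c = 1 ∨ c = 2 ∨ c = 3 ∨ c = 4 := by omega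
    rcases h4 with rfl | rfl | rfl | rfl
    · omega
    · omega
    · obtain rfl : n = 5 := by omega
      exact not_sol5 h
    · omega
  · intro h5
    obtain ⟨h, rfl⟩ : ∃ h : ℕ, c = 2 * h + 1 := by
      rcases Int.even_or_odd' c with ⟨h, hh | hh⟩
      · exfalso
        have e : c ^ 2 = 2 * (2 * h ^ 2) := by rw [hh]; ring
        omega
      · exact ⟨h.toNat, by omega⟩
    by_cases h2 : h = 2
    · subst h2
      obtain rfl : n = 13 := by omega
      exact sol13
    · have h3 : (3 : ℤ) ≤ h := by omega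
      have e : (2 * h + 1) * (2 * h + 1) + 1 = 1 * (n + n) := by
        zify
        linear_combination hc
      have := sol_sparse (n := n) (h := h) (u := 1) e (by zify; nlinarith)
      simpa using this

end Pool.Agent.Results.MP_009630_co.NegOneTwo
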